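import Mathlib
import Pool.Agent.H.MP_cd2797_al.A

set_option autoImplicit false

namespace Pool.Agent.H.MP_e6182f_al

/-- index set of the operators -/
abbrev Om := ℕ → ℕ
/-- the ring -/
abbrev RR := FreeRing (Option Om)
/-- the idempotent-like generator -/
abbrev ee : RR := FreeRing.of none
/-- the arrows -/
abbrev yy (α : Om) : RR := FreeRing.of (some α)

/-- additive maps commuting with the generators are linear -/
def mkLin {X Y : Type} [AddCommGroup X] [AddCommGroup Y] [Module RR X] [Module RR Y] (f : X →+ Y)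
    (h : ∀ a x, f ((FreeRing.of a : RR) • x) = (FreeRing.of a : RR) • f x) : X →ₗ[RR] Y where
  toFun := f
  map_add' := f.map_add
  map_smul' r x := by
    simp only [RingHom.id_apply]
    induction r using FreeRing.induction_on generalizing x with
    | hn1 => simp
    | hb a => exact h a x
    | ha r s hr hs => simp [add_smul, hr, hs]
    | hm r s hr hs => simp [mul_smul, hr, hs]

/-- the big module of the class -/
def MM : Type := ℤ × (Om →₀ ℤ)
/-- the trivial module -/
def Z0 : Type := ℤ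
/-- the ambient module -/
def VV : Type := ℚ × (Om → ℚ) × (ℕ →₀ ℚ)

noncomputable instance : AddCommGroup MM := inferInstanceAs (AddCommGroup (ℤ × (Om →₀ ℤ)))
instance : AddCommGroup Z0 := inferInstanceAs (AddCommGroup ℤ)
noncomputable instance : AddCommGroup VV := inferInstanceAs (AddCommGroup (ℚ × (Om → ℚ) × (ℕ →₀ ℚ)))

/-- operators on MM -/
noncomputable def opM : Option Om → AddMonoid.End MM
  | none => AddMonoidHom.mk' (fun x => ((x.1, 0) : ℤ × (Om →₀ ℤ))) fun _ _ => Prod.ext rfl (add_zero _).symm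
  | some α => AddMonoidHom.mk' (fun x => ((x.2 α, 0) : ℤ × (Om →₀ ℤ)))
      fun _ _ => Prod.ext rfl (add_zero _).symm

/-- operators on VV -/
noncomputable def opV : Option Om → AddMonoid.End VV
  | none => AddMonoidHom.mk' (fun x => ((x.1, 0) : ℚ × (Om → ℚ) × (ℕ →₀ ℚ)))
      fun _ _ => Prod.ext rfl (add_zero _).symm
  | some α => AddMonoidHom.mk' (fun x => ((x.2.1 α, 0) : ℚ × (Om → ℚ) × (ℕ →₀ ℚ)))
      fun _ _ => Prod.ext rfl (add_zero _).symm

noncomputable instance : Module RR MM := Module.compHom MM (FreeRing.lift opM)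
noncomputable instance : Module RR Z0 :=
  Module.compHom Z0 (FreeRing.lift fun _ : Option Om => (0 : AddMonoid.End Z0))
noncomputable instance : Module RR VV := Module.compHom VV (FreeRing.lift opV)

theorem smM (a : Option Om) (x : MM) : (FreeRing.of a : RR) • x = opM a x := by
  show (FreeRing.lift opM (FreeRing.of a)) x = _
  rw [FreeRing.lift_of]

theorem smZ (a : Option Om) (x : Z0) : (FreeRing.of a : RR) • x = 0 := by
  show (FreeRing.lift (fun _ : Option Om => (0 : AddMonoid.End Z0)) (FreeRing.of a)) x = _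
  rw [FreeRing.lift_of]
  rfl

theorem smV (a : Option Om) (x : VV) : (FreeRing.of a : RR) • x = opV a x := by
  show (FreeRing.lift opV (FreeRing.of a)) x = _
  rw [FreeRing.lift_of]

/-- elements killed by all generators -/
def KK {X : Type} [AddCommGroup X] [Module RR X] (x : X) : Prop := ee • x = 0 ∧ ∀ α, yy α • x = 0

/-- the invariant of finite sums -/
structure Phi (X : Type) [AddCommGroup X] [Module RR X] : Prop where
  sec : ∀ (a : X) (α : Om), ∃ s : X, ee • s = 0 ∧ yy α • s = ee • a ∧ ∀ β, β ≠ α → yy β • s = 0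
  bdd : ∀ u : X →ₗ[RR] VV, ∃ g : ℕ, ∀ x, KK x → ∀ k, g ≤ k → (u x).2.2 k = 0

theorem Phi.retr {X Y : Type} [AddCommGroup X] [Module RR X] [AddCommGroup Y] [Module RR Y]
    (h : Phi Y) (f : X →ₗ[RR] Y) (g : Y →ₗ[RR] X) (e : g ∘ₗ f = LinearMap.id) : Phi X := by
  have e' : ∀ x, g (f x) = x := fun x => LinearMap.congr_fun e x
  refine ⟨fun a α => ?_, fun u => ?_⟩
  · obtain ⟨s, h1, h2, h3⟩ := h.sec (f a) α
    exact ⟨g s, by rw [← map_smul, h1, map_zero], by rw [← map_smul, h2, map_smul, e'],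
      fun β hβ => by rw [← map_smul, h3 β hβ, map_zero]⟩
  · obtain ⟨n, hn⟩ := h.bdd (u ∘ₗ g)
    refine ⟨n, fun x hx k hk => ?_⟩
    have := hn (f x) ⟨by rw [← map_smul, hx.1, map_zero],
      fun α => by rw [← map_smul, hx.2, map_zero]⟩ k hk
    rwa [LinearMap.comp_apply, e'] at this

theorem Phi.sum {n : ℕ} (M : Fin n → Type) [∀ i, AddCommGroup (M i)] [∀ i, Module RR (M i)]
    (h : ∀ i, Phi (M i)) : Phi (DirectSum (Fin n) M) := by
  have dec : ∀ x : DirectSum (Fin n) M, x = ∑ i, DirectSum.lof RR (Fin n) M i (x i) :=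
    fun x => (DirectSum.sum_univ_of x).symm
  refine ⟨fun a α => ?_, fun u => ?_⟩
  · choose s h1 h2 h3 using fun i => (h i).sec (a i) α
    refine ⟨∑ i, DirectSum.lof RR (Fin n) M i (s i), ?_, ?_, fun β hβ => ?_⟩
    · simp only [Finset.smul_sum, ← map_smul, h1, map_zero, Finset.sum_const_zero]
    · conv_rhs => rw [dec a]
      simp only [Finset.smul_sum, ← map_smul, h2]
    · simp only [Finset.smul_sum, ← map_smul, h3 _ β hβ, map_zero, Finset.sum_const_zero]
  · choose g hg using fun i => (h i).bdd (u ∘ₗ DirectSum.lof RR (Fin n) M i)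
    refine ⟨Finset.univ.sup g, fun x hx k hk => ?_⟩
    let ev : VV →+ ℚ := AddMonoidHom.mk' (fun v => v.2.2 k) fun _ _ => rfl
    show ev (u x) = 0
    rw [dec x, map_sum, map_sum]
    refine Finset.sum_eq_zero fun i _ => ?_
    exact hg i (x i) ⟨congrArg (· i) hx.1, fun α => congrArg (· i) (hx.2 α)⟩ k
      ((Finset.le_sup (Finset.mem_univ i)).trans hk)

theorem Phi_MM : Phi MM := by
  refine ⟨fun a α => ⟨((0, Finsupp.single α a.1) : ℤ × (Om →₀ ℤ)), ?_, ?_, fun β hβ => ?_⟩,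
    fun u => ⟨0, fun x hx k _ => ?_⟩⟩
  · rw [smM]
    rfl
  · rw [smM, smM]
    exact Prod.ext Finsupp.single_eq_same rfl
  · rw [smM]
    exact Prod.ext (Finsupp.single_eq_of_ne hβ) rfl
  · have : x = 0 := by
      refine Prod.ext ?_ (Finsupp.ext fun α => ?_)
      · have := hx.1
        rw [smM] at this
        have h := congrArg (fun v : MM => v.1) this
        exact h
      · have := hx.2 α
        rw [smM] at this
        have h := congrArg (fun v : MM => v.1) this
        exact h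
    rw [this, map_zero]
    rfl

/-- the generator -/
def one : Z0 := (1 : ℤ)

theorem Phi_Z0 : Phi Z0 := by
  refine ⟨fun a α => ⟨0, smul_zero _, by rw [smZ, smZ], fun _ _ => smul_zero _⟩, fun u => ?_⟩
  refine ⟨(u one).2.2.support.sup id + 1, fun x _ k hk => ?_⟩
  have h1 : (u one).2.2 k = 0 := by
    by_contra hc
    have := Finset.le_sup (f := id) (Finsupp.mem_support_iff.2 hc)
    exact absurd (hk.trans this) (Nat.not_succ_le_self _)
  let ev : VV →+ ℚ := AddMonoidHom.mk' (fun v => v.2.2 k) fun _ _ => rfl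
  have h2 : x = (show ℤ from x) • one := by
    show (show ℤ from x) = (show ℤ from x) • (1 : ℤ)
    simp
  show ev (u x) = 0
  rw [h2, map_zsmul, map_zsmul]
  show _ • (u one).2.2 k = 0
  rw [h1, smul_zero]

theorem Phi.prod {X Y : Type} [AddCommGroup X] [Module RR X] [AddCommGroup Y] [Module RR Y]
    (hX : Phi X) (hY : Phi Y) : Phi (X × Y) := by
  refine ⟨fun a α => ?_, fun u => ?_⟩
  · obtain ⟨s, h1, h2, h3⟩ := hX.sec a.1 α
    obtain ⟨t, k1, k2, k3⟩ := hY.sec a.2 α
    exact ⟨(s, t), Prod.ext h1 k1, Prod.ext h2 k2, fun β hβ => Prod.ext (h3 β hβ) (k3 β hβ)⟩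
  · obtain ⟨m, hm⟩ := hX.bdd (u ∘ₗ LinearMap.inl RR X Y)
    obtain ⟨n, hn⟩ := hY.bdd (u ∘ₗ LinearMap.inr RR X Y)
    refine ⟨max m n, fun x hx k hk => ?_⟩
    let ev : VV →+ ℚ := AddMonoidHom.mk' (fun v => v.2.2 k) fun _ _ => rfl
    have e : x = LinearMap.inl RR X Y x.1 + LinearMap.inr RR X Y x.2 := by simp
    show ev (u x) = 0
    rw [e, map_add, map_add]
    have h1 : ev (u (LinearMap.inl RR X Y x.1)) = 0 :=
      hm x.1 ⟨congrArg Prod.fst hx.1, fun α => congrArg Prod.fst (hx.2 α)⟩ k (le_of_max_le_left hk)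
    have h2 : ev (u (LinearMap.inr RR X Y x.2)) = 0 :=
      hn x.2 ⟨congrArg Prod.snd hx.1, fun α => congrArg Prod.snd (hx.2 α)⟩ k (le_of_max_le_right hk)
    rw [h1, h2, add_zero]

/-- correction terms -/
noncomputable def tau : ℕ → Om → (ℕ →₀ ℚ)
  | 0, _ => 0
  | i + 1, α => (1 / 2 : ℚ) • (tau i α - Finsupp.single (α i) 1)

theorem tau_succ (i : ℕ) (α : Om) :
    tau i α = Finsupp.single (α i) 1 + (tau (i + 1) α + tau (i + 1) α) := by
  rw [tau, ← add_smul]
  norm_num

/-- linear extension of the correction terms -/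
noncomputable def LL (i : ℕ) : (Om →₀ ℤ) →+ (ℕ →₀ ℚ) :=
  Finsupp.liftAddHom fun α => zmultiplesHom _ (tau i α)

/-- twisting maps -/
noncomputable def SS (i : ℕ) : (Om →₀ ℤ) →+ (ℕ →₀ Z0) :=
  Finsupp.liftAddHom fun α => zmultiplesHom _ (Finsupp.single (α i) (show ℤ from 1))

/-- cast -/
noncomputable def cs : (ℕ →₀ Z0) →+ (ℕ →₀ ℚ) :=
  Finsupp.mapRange.addMonoidHom (show ℤ →+ ℚ from Int.castAddHom ℚ)

theorem cs_apply (b : ℕ →₀ Z0) (k : ℕ) : cs b k = ((show ℤ from b k : ℤ) : ℚ) := rfl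

theorem LL_succ (i : ℕ) (f : Om →₀ ℤ) : LL i f = cs (SS i f) + LL (i + 1) (f + f) := by
  have : LL i = cs.comp (SS i) + (LL (i + 1) + LL (i + 1)) := by
    refine Finsupp.addHom_ext fun α n => ?_
    simp only [LL, SS, AddMonoidHom.add_apply, AddMonoidHom.comp_apply,
      Finsupp.liftAddHom_apply_single, zmultiplesHom_apply, map_zsmul, ← smul_add]
    rw [tau_succ i α]
    congr 2
    simp only [cs, Finsupp.mapRange.addMonoidHom_apply, Finsupp.mapRange_single]
    exact congrArg _ (Int.cast_one).symm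
  rw [this, map_add]
  rfl

/-- the embeddings of the stages -/
noncomputable def phi (i : ℕ) : (MM × (ℕ →₀ Z0)) →ₗ[RR] VV :=
  mkLin (AddMonoidHom.mk' (fun x => (((x.1.1 : ℚ) / 2 ^ i, fun α => (x.1.2 α : ℚ) / 2 ^ i,
      cs x.2 + LL i x.1.2) : ℚ × (Om → ℚ) × (ℕ →₀ ℚ))) fun x y => by
      refine Prod.ext ?_ (Prod.ext (funext fun α => ?_) ?_)
      · show ((x.1.1 + y.1.1 : ℤ) : ℚ) / 2 ^ i = _ / _ + _ / _
        push_cast
        ring
      · show ((x.1.2 α + y.1.2 α : ℤ) : ℚ) / 2 ^ i = _ / _ + _ / _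
        push_cast
        ring
      · show cs (x.2 + y.2) + LL i (x.1.2 + y.1.2) = (_ + _) + (_ + _)
        rw [map_add, map_add]
        abel) fun a x => by
    have h : (FreeRing.of a : RR) • x = (opM a x.1, 0) :=
      Prod.ext (smM a x.1) (Finsupp.ext fun k => smZ a (x.2 k))
    rw [h, smV]
    have h1 : ((0 : ℤ) : ℚ) / 2 ^ i = 0 := by simp
    have h2 : cs 0 + LL i 0 = 0 := by simp
    cases a with
    | none => exact Prod.ext rfl (Prod.ext (funext fun _ => h1) h2)
    | some β => exact Prod.ext rfl (Prod.ext (funext fun _ => h1) h2)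

theorem phi_1 (i : ℕ) (x : MM × (ℕ →₀ Z0)) : (phi i x).1 = (x.1.1 : ℚ) / 2 ^ i := rfl
theorem phi_2 (i : ℕ) (x : MM × (ℕ →₀ Z0)) (α : Om) : (phi i x).2.1 α = (x.1.2 α : ℚ) / 2 ^ i := rfl
theorem phi_3 (i : ℕ) (x : MM × (ℕ →₀ Z0)) : (phi i x).2.2 = cs x.2 + LL i x.1.2 := rfl

theorem phi_inj (i : ℕ) : Function.Injective (phi i) := by
  rw [injective_iff_map_eq_zero]
  intro x hx
  have h2 : x.1.2 = 0 := Finsupp.ext fun α => by
    have : (x.1.2 α : ℚ) / 2 ^ i = 0 := congrArg (fun v : VV => v.2.1 α) hx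
    simpa using this
  refine Prod.ext (Prod.ext ?_ h2) (Finsupp.ext fun k => ?_)
  · have : (x.1.1 : ℚ) / 2 ^ i = 0 := congrArg (fun v : VV => v.1) hx
    show x.1.1 = 0
    simpa using this
  · have : (cs x.2 + LL i x.1.2) k = 0 := congrArg (fun v : VV => v.2.2 k) hx
    rw [h2, map_zero, add_zero, cs_apply] at this
    exact_mod_cast this

theorem phi_mono : Monotone fun i => LinearMap.range (phi i) := by
  refine monotone_nat_of_le_succ fun i => ?_
  rintro _ ⟨x, rfl⟩
  refine ⟨(x.1 + x.1, x.2 + SS i x.1.2), Prod.ext ?_ (Prod.ext (funext fun α => ?_) ?_)⟩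
  · show ((x.1.1 + x.1.1 : ℤ) : ℚ) / 2 ^ (i + 1) = _ / _
    push_cast
    field_simp
    ring
  · show ((x.1.2 α + x.1.2 α : ℤ) : ℚ) / 2 ^ (i + 1) = _ / _
    push_cast
    field_simp
    ring
  · show cs (x.2 + SS i x.1.2) + LL (i + 1) (x.1.2 + x.1.2) = cs x.2 + LL i x.1.2
    rw [LL_succ i, map_add, add_assoc]

/-- the module that is a limit of infinite sums only -/
noncomputable def NN : Submodule RR VV := ⨆ i, LinearMap.range (phi i)

theorem mem_NN {v : VV} : v ∈ NN ↔ ∃ i x, phi i x = v :=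
  Submodule.mem_iSup_of_directed _ phi_mono.directed_le

theorem contra (g : ℕ → ℕ) (z : Om → ℕ → VV) (hz : ∀ α n, z α n ∈ NN)
    (h1 : ∀ α n, (z α n).2.1 α = 1 / 2 ^ n) (h2 : ∀ α n β, β ≠ α → (z α n).2.1 β = 0)
    (h3 : ∀ α n k, g n ≤ k → (z α n).2.2 k = 2 * (z α (n + 1)).2.2 k) : False := by
  let α : Om := fun n => n + ∑ i ∈ Finset.range (n + 1), g i
  have hα : StrictMono α := strictMono_nat_of_lt_succ fun n => by
    simp only [α, Finset.sum_range_succ _ (n + 1)]
    omega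
  have hg : ∀ i n, i ≤ n → g i ≤ α n := fun i n h =>
    (Finset.single_le_sum (f := g) (fun _ _ => Nat.zero_le _)
      (Finset.mem_range.2 (Nat.lt_succ_of_le h))).trans (Nat.le_add_left _ _)
  have hint : ∀ n k, ∃ m : ℤ, (z α n).2.2 k = tau n α k + m := fun n k => by
    have hw : phi n (((0, Finsupp.single α 1) : ℤ × (Om →₀ ℤ)), 0) ∈ NN := mem_NN.2 ⟨_, _, rfl⟩
    obtain ⟨i, x, hx⟩ := mem_NN.1 (NN.sub_mem (hz α n) hw)
    have h4 : x.1.2 = 0 := Finsupp.ext fun β => by
      have : (x.1.2 β : ℚ) / 2 ^ i = (z α n).2.1 β - ((Finsupp.single α (1 : ℤ) β : ℤ) : ℚ) / 2 ^ n :=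
        congrArg (fun v : VV => v.2.1 β) hx
      by_cases hβ : β = α
      · subst hβ
        rw [h1] at this
        simpa using this
      · rw [h2 _ _ _ hβ, Finsupp.single_eq_of_ne hβ] at this
        simpa using this
    have : (cs x.2 + LL i x.1.2) k = (z α n).2.2 k - (cs 0 + LL n (Finsupp.single α 1)) k :=
      congrArg (fun v : VV => v.2.2 k) hx
    rw [h4, map_zero, map_zero, add_zero, zero_add, cs_apply, LL, Finsupp.liftAddHom_apply_single,
      zmultiplesHom_apply, one_smul] at this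
    exact ⟨_, by rw [this]; ring⟩
  have key : ∀ n, (z α 0).2.2 (α n) ≠ 0 := fun n => by
    have h5 : ∀ i, i ≤ n + 1 → (z α 0).2.2 (α n) = 2 ^ i * (z α i).2.2 (α n) := fun i hi => by
      induction i with
      | zero => simp
      | succ i ih => rw [ih (by omega), h3 α i _ (hg i n (by omega))]; ring
    have h6 : ∀ i, i ≤ n → tau i α (α n) = 0 := fun i hi => by
      induction i with
      | zero => rfl
      | succ i ih =>
        simp only [tau, Finsupp.smul_apply, Finsupp.sub_apply, ih (by omega)]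
        rw [Finsupp.single_eq_of_ne (hα (by omega : i < n)).ne']
        simp
    obtain ⟨m, hm⟩ := hint (n + 1) (α n)
    rw [h5 (n + 1) le_rfl, hm]
    simp only [tau, Finsupp.smul_apply, Finsupp.sub_apply, h6 n le_rfl, Finsupp.single_eq_same]
    refine mul_ne_zero (by positivity) fun h => ?_
    have : (2 * m : ℚ) = 1 := by
      simp only [smul_eq_mul] at h
      linarith
    have : 2 * m = 1 := by exact_mod_cast this
    omega
  exact Set.infinite_range_of_injective hα.injective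
    ((z α 0).2.2.support.finite_toSet.subset (by
      rintro _ ⟨n, rfl⟩
      exact Finset.mem_coe.2 (Finsupp.mem_support_iff.2 (key n))))

open CategoryTheory CategoryTheory.Limits in
theorem not_lim {J : Type} [SmallCategory J] [IsFiltered J] (F : J ⥤ ModuleCat.{0} RR)
    (hF : ∀ j, Phi (F.obj j)) (c : Cocone F) (hc : IsColimit c)
    (e : c.pt ≅ ModuleCat.of RR NN) : False := by
  let u : ∀ j, F.obj j →ₗ[RR] VV := fun j => NN.subtype ∘ₗ (e.hom.hom ∘ₗ (c.ι.app j).hom)
  have hu : ∀ j x, u j x ∈ NN := fun j x => (e.hom.hom ((c.ι.app j).hom x)).2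
  have nat : ∀ {i j : J} (f : i ⟶ j) (y : F.obj i), u j ((F.map f).hom y) = u i y := fun f y =>
    congrArg (fun t => NN.subtype (e.hom.hom t)) (ConcreteCategory.congr_hom (c.w f) y)
  have rep : ∀ v ∈ NN, ∃ j x, u j x = v := fun v hv => by
    obtain ⟨j, x, hx⟩ := Concrete.isColimit_exists_rep F hc (e.inv.hom ⟨v, hv⟩)
    refine ⟨j, x, ?_⟩
    have h1 : (c.ι.app j).hom x = e.inv.hom ⟨v, hv⟩ := hx
    show NN.subtype (e.hom.hom ((c.ι.app j).hom x)) = v
    rw [h1]
    exact congrArg NN.subtype (ConcreteCategory.congr_hom e.inv_hom_id ⟨v, hv⟩)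
  have eqv : ∀ {i j : J} (x : F.obj i) (y : F.obj j), u i x = u j y →
      ∃ (k : J) (f : i ⟶ k) (g : j ⟶ k), (F.map f).hom x = (F.map g).hom y := fun x y h =>
    Concrete.isColimit_exists_of_rep_eq F hc x y
      (e.toLinearEquiv.injective (Subtype.ext h))
  choose j a ha using fun n : ℕ =>
    rep _ (mem_NN.2 ⟨n, (((1, 0) : ℤ × (Om →₀ ℤ)), 0), rfl⟩)
  have ha1 : ∀ n, (u (j n) (a n)).1 = 1 / 2 ^ n := fun n => by
    rw [ha, phi_1]
    simp
  choose k f g hk using fun n => eqv (a n) (a (n + 1) + a (n + 1)) (by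
    rw [map_add, ha, ha]
    refine Prod.ext ?_ (Prod.ext (funext fun α => ?_) ?_)
    · show ((1 : ℤ) : ℚ) / 2 ^ n = ((1 : ℤ) : ℚ) / 2 ^ (n + 1) + ((1 : ℤ) : ℚ) / 2 ^ (n + 1)
      field_simp
      ring
    · show ((0 : ℤ) : ℚ) / 2 ^ n = ((0 : ℤ) : ℚ) / 2 ^ (n + 1) + ((0 : ℤ) : ℚ) / 2 ^ (n + 1)
      simp
    · show cs 0 + LL n 0 = (cs 0 + LL (n + 1) 0) + (cs 0 + LL (n + 1) 0)
      simp)
  choose s s1 s2 s3 using fun n α => (hF (j n)).sec (a n) α
  choose b hb using fun n => (hF (k n)).bdd (u (k n))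
  refine contra b (fun α n => u (j n) (s n α)) (fun _ _ => hu _ _) (fun α n => ?_)
    (fun α n β hβ => ?_) fun α n m hm => ?_
  · have h := congrArg (fun t => (u (j n) t).1) (s2 n α)
    simp only [map_smul, smV] at h
    exact h.trans (ha1 n)
  · have h := congrArg (fun t => (u (j n) t).1) (s3 n α β hβ)
    simp only [map_smul, smV, map_zero] at h
    exact h
  · have h := hb n ((F.map (f n)).hom (s n α) -
      (F.map (g n)).hom (s (n + 1) α + s (n + 1) α)) ⟨by
        simp only [smul_sub, ← map_smul, smul_add, s1, add_zero, map_zero, sub_zero], fun β => by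
        by_cases hβ : β = α
        · subst hβ
          rw [smul_sub, ← map_smul, ← map_smul, smul_add, s2, s2, ← smul_add, map_smul, map_smul,
            hk, sub_self]
        · simp only [smul_sub, ← map_smul, smul_add, s3 _ _ _ hβ, add_zero, map_zero, sub_zero]⟩ m hm
    rw [map_sub, nat, nat, map_add] at h
    have h' : (u (j n) (s n α)).2.2 m - ((u (j (n + 1)) (s (n + 1) α)).2.2 m +
      (u (j (n + 1)) (s (n + 1) α)).2.2 m) = 0 := h
    linarith

/-- the single module -/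
abbrev WW : Type := MM × Z0

theorem retr_sum : ∃ (f : (MM × (ℕ →₀ Z0)) →ₗ[RR] DirectSum ℕ fun _ => WW)
    (g : (DirectSum ℕ fun _ => WW) →ₗ[RR] (MM × (ℕ →₀ Z0))), g ∘ₗ f = LinearMap.id := by
  refine ⟨LinearMap.coprod (DirectSum.lof RR ℕ (fun _ => WW) 0 ∘ₗ LinearMap.inl RR MM Z0)
    (Finsupp.lsum ℕ fun k => DirectSum.lof RR ℕ (fun _ => WW) k ∘ₗ LinearMap.inr RR MM Z0),
    DirectSum.toModule RR ℕ _ fun k => LinearMap.prodMap LinearMap.id (Finsupp.lsingle k), ?_⟩
  refine LinearMap.prod_ext ?_ (Finsupp.lhom_ext' fun k => ?_)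
  · ext1 x
    simp
  · ext1 x
    simp only [LinearMap.comp_apply, LinearMap.inr_apply, LinearMap.coprod_apply, map_zero, zero_add,
      Finsupp.lsingle_apply, Finsupp.lsum_single, DirectSum.toModule_lof, LinearMap.prodMap_apply,
      LinearMap.id_apply]

open CategoryTheory CategoryTheory.Limits in
theorem is_lim : ∃ (F : ℕ ⥤ ModuleCat.{0} RR),
    (∀ j, ∃ (f : (F.obj j : Type) →ₗ[RR] DirectSum ℕ (fun _ => WW))
      (g : DirectSum ℕ (fun _ => WW) →ₗ[RR] (F.obj j : Type)), g ∘ₗ f = LinearMap.id) ∧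
    ∃ c : Cocone F, Nonempty (IsColimit c) ∧ Nonempty (c.pt ≅ ModuleCat.of RR NN) := by
  obtain ⟨F, c, hc, hp, hF⟩ := Pool.Agent.H.MP_cd2797_al.union_colim (R := RR) (ι := ℕ) NN
    (fun i => (LinearMap.range (phi i)).comap NN.subtype)
    (fun i j h => Submodule.comap_mono (phi_mono h)) fun x => by
      obtain ⟨i, y, hy⟩ := mem_NN.1 x.2
      exact ⟨i, y, hy⟩
  refine ⟨F, fun j => ?_, c, hc, ⟨eqToIso hp⟩⟩
  rw [hF]
  obtain ⟨f, g, h⟩ := retr_sum
  let e := (Submodule.comapSubtypeEquivOfLe (le_iSup (fun i => LinearMap.range (phi i)) j)).trans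
    (LinearEquiv.ofInjective _ (phi_inj j)).symm
  refine ⟨f ∘ₗ e.toLinearMap, e.symm.toLinearMap ∘ₗ g, LinearMap.ext fun x => ?_⟩
  show e.symm ((g ∘ₗ f) (e x)) = x
  rw [h]
  exact e.symm_apply_apply x

end Pool.Agent.H.MP_e6182f_al
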